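import Pool.Agent.helper76.UFG.Spec

set_option autoImplicit false

/-! Row ufg:COR: a power of `y` times `ρ` is fixed by all `σ p`. -/

namespace Pool.Agent.UFG

open Finset NumberField nonZeroDivisors Pool.Agent.UF

theorem COR_pow {R : Type} [CommRing R] (x : R) (a b d : ℕ) (hx : x ^ d = 1)
    (h : a ≡ b [MOD d]) : x ^ a = x ^ b := by
  rw [pow_eq_pow_mod a hx, pow_eq_pow_mod b hx]
  have h' : a % d = b % d := h
  rw [h']

theorem COR_cop (n p q : ℕ) (hp : p.Prime) (hq : q.Prime) (hpq : p ≠ q) (a : ℕ)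
    (ha : q ^ a ∣ n) : q ^ a ∣ n / p ^ n.factorization p := by
  apply Nat.dvd_div_of_mul_dvd
  have hc : (p ^ n.factorization p).Coprime (q ^ a) :=
    Nat.Coprime.pow _ _ ((Nat.coprime_primes hp hq).2 hpq)
  exact hc.mul_dvd_of_dvd_of_dvd (Nat.ordProj_dvd n p) ha

theorem COR_semi (n M : ℕ) (R : Type) [CommRing R] (y ρ : R) (hn : n ≠ 0) (hy : y ^ n = 1)
    (h : Semi n M y ρ) (i : ℕ) : Semi n M y (y ^ i * ρ) := by
  obtain ⟨h1, h2⟩ := h
  have e1 : ∀ t : ℕ, y ^ ((n - 1) * t) * y ^ t = 1 := by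
    intro t
    rw [← pow_add]
    have e : (n - 1) * t + t = n * t := by
      obtain ⟨n', rfl⟩ := Nat.exists_eq_succ_of_ne_zero hn
      simp only [Nat.succ_eq_add_one, Nat.add_sub_cancel]
      ring
    rw [e, pow_mul, hy, one_pow]
  refine ⟨?_, ?_⟩
  · intro k s hs hk
    obtain ⟨j, hj⟩ := h1 k s hs hk
    refine ⟨k * i + j + (n - 1) * i, ?_⟩
    rw [map_mul, map_pow, hs, hj]
    have e2 : y ^ (k * i + j + (n - 1) * i) * (y ^ i * ρ) =
        y ^ (k * i) * y ^ j * (y ^ ((n - 1) * i) * y ^ i) * ρ := by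
      rw [pow_add, pow_add]; ring
    rw [e2, e1, ← pow_mul]
    ring
  · intro p hp hpn
    obtain ⟨P, hP, hpP, hρ⟩ := h2 p hp hpn
    refine ⟨P, hP, hpP, fun hm => hρ ?_⟩
    have := P.mul_mem_left (y ^ ((n - 1) * i)) hm
    rwa [← mul_assoc, e1, one_mul] at this

theorem COR (hIN1 : IN1_stmt) (hTW2 : TW2_stmt) : COR_stmt := by
  intro m n R _ _ y ρ hm hn hMn hC hρ hS k σ hF
  have hy : y ^ n = 1 := hC.1.pow_eq_one
  have e1 : ∀ t : ℕ, y ^ ((n - 1) * t) * y ^ t = 1 := by
    intro t
    rw [← pow_add]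
    have e : (n - 1) * t + t = n * t := by
      obtain ⟨n', rfl⟩ := Nat.exists_eq_succ_of_ne_zero hn
      simp only [Nat.succ_eq_add_one, Nat.add_sub_cancel]
      ring
    rw [e, pow_mul, hy, one_pow]
  have hyne : ∀ t : ℕ, y ^ t ≠ 0 := by
    intro t h0
    have := e1 t
    rw [h0, mul_zero] at this
    exact zero_ne_one this
  have key : ∀ S : Finset ℕ, S ⊆ n.primeFactors →
      ∃ i : ℕ, ∀ p ∈ S, σ p (y ^ i * ρ) = y ^ i * ρ := by
    intro S
    induction S using Finset.induction_on with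
    | empty => intro _; exact ⟨0, fun p hp => by simp at hp⟩
    | insert q S hqS ih =>
      intro hsub
      obtain ⟨i, hi⟩ := ih (fun x hx => hsub (Finset.mem_insert_of_mem hx))
      have hqn : q ∈ n.primeFactors := hsub (Finset.mem_insert_self _ _)
      have hq : q.Prime := Nat.prime_of_mem_primeFactors hqn
      have hqd : q ∣ n := Nat.dvd_of_mem_primeFactors hqn
      obtain ⟨hσ, hk1, hk2, hk3⟩ := hF q hqn
      have hS' := COR_semi n (2 ^ (m + 1)) R y ρ hn hy hS i
      have hkM : k q ≡ 1 [MOD 2 ^ (m + 1)] := by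
        by_cases h2 : q = 2
        · have h3 := hk3 h2
          subst h2
          have h4 : m + 1 ≤ n.factorization 2 :=
            (Nat.Prime.pow_dvd_iff_le_factorization hq hn).1 hMn
          have h5 := h3.of_dvd (pow_dvd_pow 2 h4)
          refine h5.trans ?_
          show (1 + 2 ^ (m + 1)) % 2 ^ (m + 1) = 1 % 2 ^ (m + 1)
          rw [Nat.add_mod_right]
        · exact hk1.of_dvd (COR_cop n q 2 hq Nat.prime_two h2 (m + 1) hMn)
      obtain ⟨j, hj⟩ := hS'.1 (k q) (σ q) hσ hkM
      obtain ⟨P, hP, hqP, hρP⟩ := hS'.2 q hq hqd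
      have hfac : n = q ^ n.factorization q * (n / q ^ n.factorization q) :=
        (Nat.ordProj_mul_ordCompl_eq_self n q).symm
      have hnd : ¬ q ∣ n / q ^ n.factorization q := Nat.not_dvd_ordCompl hq hn
      have hj1 : (y ^ j) ^ q ^ n.factorization q = 1 :=
        hIN1 n q (n.factorization q) (n / q ^ n.factorization q) R y hn hC hq hfac hnd P hP hqP
          (y ^ i * ρ) hρP (k q) (σ q) hσ hk1 j hj
      have hex : ∃ i' : ℕ, (y ^ i') ^ q ^ n.factorization q = 1 ∧
          σ q (y ^ i' * (y ^ i * ρ)) = y ^ i' * (y ^ i * ρ) := by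
        by_cases h2 : q = 2
        · have h3 := hk3 h2
          subst h2
          have h4 : m + 1 ≤ n.factorization 2 :=
            (Nat.Prime.pow_dvd_iff_le_factorization hq hn).1 hMn
          have hodd : Odd (n / 2 ^ n.factorization 2) := by
            rw [← Nat.not_even_iff_odd, even_iff_two_dvd]
            exact hnd
          exact hTW2 m (n.factorization 2) (n / 2 ^ n.factorization 2) (k 2) j R y (y ^ i * ρ)
            (σ 2) hm h4 hodd (by rw [← hfac]; exact hC) (mul_ne_zero (hyne i) hρ) hσ h3 hk1 hj hj1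
        · have h3 := hk2 h2
          refine ⟨(n - 1) * j, ?_, ?_⟩
          · rw [mul_comm (n - 1) j, pow_mul, ← pow_mul, mul_comm (n - 1), pow_mul, hj1, one_pow]
          · have hx : (y ^ ((n - 1) * j)) ^ q ^ n.factorization q = 1 := by
              rw [mul_comm (n - 1) j, pow_mul, ← pow_mul, mul_comm (n - 1), pow_mul, hj1, one_pow]
            have h5 : σ q (y ^ ((n - 1) * j)) = (y ^ ((n - 1) * j)) ^ 2 := by
              rw [map_pow, hσ, ← pow_mul, mul_comm (k q), pow_mul]
              exact COR_pow _ _ _ _ hx h3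
            rw [map_mul, h5, hj]
            have h6 : (y ^ ((n - 1) * j)) ^ 2 * (y ^ j * (y ^ i * ρ)) =
                (y ^ ((n - 1) * j) * y ^ j) * (y ^ ((n - 1) * j) * (y ^ i * ρ)) := by ring
            rw [h6, e1, one_mul]
      obtain ⟨i', hi1, hi2⟩ := hex
      refine ⟨i' + i, ?_⟩
      have e3 : y ^ (i' + i) * ρ = y ^ i' * (y ^ i * ρ) := by rw [pow_add]; ring
      intro p hp
      rw [e3]
      rcases Finset.mem_insert.1 hp with h | h
      · rw [h]; exact hi2
      · have hpq : p ≠ q := fun h0 => hqS (h0 ▸ h)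
        have hpn : p ∈ n.primeFactors := hsub (Finset.mem_insert_of_mem h)
        have hpp : p.Prime := Nat.prime_of_mem_primeFactors hpn
        obtain ⟨hσp, hkp, _, _⟩ := hF p hpn
        rw [map_mul, hi p h]
        have h7 : σ p (y ^ i') = y ^ i' := by
          rw [map_pow, hσp, ← pow_mul, mul_comm, pow_mul]
          have h8 : k p ≡ 1 [MOD q ^ n.factorization q] :=
            hkp.of_dvd (COR_cop n p q hpp hq hpq _ (Nat.ordProj_dvd n q))
          rw [COR_pow _ _ _ _ hi1 h8, pow_one]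
        rw [h7]
  exact key n.primeFactors (Finset.Subset.refl _)

end Pool.Agent.UFG
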